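import Mathlib
import Pool.Agent.X142.BRW

/-!
An irreducible branching random walk with countably infinitely many extinction probability vectors.
-/

open MeasureTheory ProbabilityTheory Finset
open scoped ENNReal NNReal

namespace Pool.Agent.Results.MP_2fa7ec_pr.CountablyInfinite

open X142.BRW

/-- Not every particle has exactly one child almost surely. -/
def NonSingular {X : Type} (μ : X → PMF (X →₀ ℕ)) : Prop :=
  ∃ x f, μ x f ≠ 0 ∧ f.sum (fun _ n => n) ≠ 1

/-- Vertices: the origin `none` and the vertices `(i,k)`: type `i`, level `k`. -/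
abbrev Vx : Type := Option (ℕ × ℕ)

/-- Probability of a child at the origin for a particle at level `k`. -/
noncomputable def eps (k : ℕ) : ℝ≥0 := (1 / 4) ^ k / 8

lemma eps_le_one (k : ℕ) : eps k ≤ 1 := by
  unfold eps
  have h : ((1 / 4 : ℝ≥0)) ^ k ≤ 1 := pow_le_one₀ bot_le (by
    rw [div_le_iff₀ (by norm_num)]; norm_num)
  calc (1 / 4 : ℝ≥0) ^ k / 8 ≤ 1 / 8 := by gcongr
    _ ≤ 1 := by rw [div_le_iff₀ (by norm_num)]; norm_num

lemma eps_pos (k : ℕ) : 0 < eps k := by unfold eps; positivity

/-- The children of a particle at `(i,k)` that stay away from the origin. -/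
noncomputable def base (i k : ℕ) : Vx →₀ ℕ :=
  Finsupp.single (some (i, k + 1)) 2 + Finsupp.single (some (i - 1, k + 1)) (if i = 0 then 0 else 1)

/-- The geometric distribution on `ℕ`. -/
noncomputable def geo : PMF ℕ :=
  ⟨fun i => 2⁻¹ ^ (i + 1), by
    have h : ∑' i : ℕ, (2⁻¹ : ℝ≥0∞) ^ (i + 1) = 1 := ENNReal.tsum_two_zpow_neg_add_one'
    rw [← h]
    exact ENNReal.summable.hasSum⟩
where
  ENNReal.tsum_two_zpow_neg_add_one' : ∑' i : ℕ, (2⁻¹ : ℝ≥0∞) ^ (i + 1) = 1 := by
    rw [ENNReal.tsum_geometric_add_one, ENNReal.one_sub_inv_two, inv_inv]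
    exact ENNReal.inv_mul_cancel (by simp) (by simp)

/-- The branching random walk: a particle at `(i,k)` has two children at `(i,k+1)`, one child at
`(i-1,k+1)` if `i ≥ 1`, and with probability `4^{-k}/8` one more child at the origin; a particle at
the origin has one child at a random `(i,0)`. -/
noncomputable def mu : Vx → PMF (Vx →₀ ℕ)
  | none => geo.map (fun i => Finsupp.single (some (i, 0)) 1)
  | some (i, k) => (PMF.bernoulli (eps k) (eps_le_one k)).map
      (fun b => base i k + Finsupp.single none (if b then 1 else 0))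

lemma mu_none_ne {f : Vx →₀ ℕ} (h : mu none f ≠ 0) : ∃ i, f = Finsupp.single (some (i, 0)) 1 := by
  rw [← PMF.mem_support_iff] at h
  unfold mu at h
  rw [PMF.mem_support_map_iff] at h
  obtain ⟨i, _, rfl⟩ := h
  exact ⟨i, rfl⟩

lemma mu_some_ne {i k : ℕ} {f : Vx →₀ ℕ} (h : mu (some (i, k)) f ≠ 0) :
    ∃ m : ℕ, f = base i k + Finsupp.single none m := by
  rw [← PMF.mem_support_iff] at h
  unfold mu at h
  rw [PMF.mem_support_map_iff] at h
  obtain ⟨b, _, rfl⟩ := h
  exact ⟨_, rfl⟩

/-- The almost sure properties of the offspring. -/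
structure Good (ξ : ℕ × Vx × ℕ → (Vx →₀ ℕ)) : Prop where
  stay : ∀ n i k j, ξ (n, some (i, k), j) (some (i, k + 1)) ≠ 0
  down : ∀ n i k j, ξ (n, some (i + 1, k), j) (some (i, k + 1)) ≠ 0
  only : ∀ n i k j i' k', ξ (n, some (i, k), j) (some (i', k')) ≠ 0 → k' = k + 1 ∧ i' ≤ i

lemma base_stay (i k : ℕ) : base i k (some (i, k + 1)) ≠ 0 := by
  unfold base
  rw [Finsupp.add_apply, Finsupp.single_eq_same]
  omega

lemma base_down (i k : ℕ) : base (i + 1) k (some (i, k + 1)) ≠ 0 := by
  unfold base
  rw [Finsupp.add_apply]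
  have : (Finsupp.single (some (i + 1 - 1, k + 1)) (if i + 1 = 0 then 0 else 1) : Vx →₀ ℕ)
      (some (i, k + 1)) = 1 := by
    rw [Nat.add_sub_cancel, Finsupp.single_eq_same]
    simp
  rw [this]
  omega

lemma base_only {i k i' k' : ℕ} (h : base i k (some (i', k')) ≠ 0) : k' = k + 1 ∧ i' ≤ i := by
  unfold base at h
  rw [Finsupp.add_apply, Finsupp.single_apply, Finsupp.single_apply] at h
  by_cases h1 : (some (i, k + 1) : Vx) = some (i', k')
  · simp only [Option.some.injEq, Prod.mk.injEq] at h1
    omega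
  · rw [if_neg h1] at h
    by_cases h2 : (some (i - 1, k + 1) : Vx) = some (i', k')
    · simp only [Option.some.injEq, Prod.mk.injEq] at h2
      omega
    · rw [if_neg h2] at h
      simp at h

lemma ae_good : ∀ᵐ ξ ∂(offspringLaw mu), Good ξ := by
  have h := ae_offspring mu (fun x f => ∀ i k, x = some (i, k) →
    ∃ m : ℕ, f = base i k + Finsupp.single none m) (by
      rintro x f hf i k rfl
      exact mu_some_ne hf)
  filter_upwards [h] with ξ hξ
  refine ⟨?_, ?_, ?_⟩
  · intro n i k j
    obtain ⟨m, hm⟩ := hξ n _ j i k rfl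
    rw [hm, Finsupp.add_apply]
    have := base_stay i k
    omega
  · intro n i k j
    obtain ⟨m, hm⟩ := hξ n _ j (i + 1) k rfl
    rw [hm, Finsupp.add_apply]
    have := base_down i k
    omega
  · intro n i k j i' k' h'
    obtain ⟨m, hm⟩ := hξ n _ j i k rfl
    rw [hm, Finsupp.add_apply] at h'
    have h2 : (Finsupp.single none m : Vx →₀ ℕ) (some (i', k')) = 0 := by
      rw [Finsupp.single_apply, if_neg (by simp)]
    rw [h2, add_zero] at h'
    exact base_only h'

section deterministic

variable {ξ : ℕ × Vx × ℕ → (Vx →₀ ℕ)} {x₀ : Vx}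

lemma pop_stay (hξ : Good ξ) {n i k : ℕ} (h : population ξ x₀ n (some (i, k)) ≠ 0) (m : ℕ) :
    population ξ x₀ (n + m) (some (i, k + m)) ≠ 0 := by
  induction m with
  | zero => exact h
  | succ m ih =>
    have h1 := le_population_succ ξ x₀ (n + m) (some (i, k + m)) (some (i, k + m + 1))
      (j := 0) (by omega)
    have h2 := hξ.stay (n + m) i (k + m) 0
    rw [show n + (m + 1) = n + m + 1 by ring, show k + (m + 1) = k + m + 1 by ring]
    omega

lemma pop_down (hξ : Good ξ) {i : ℕ} (m : ℕ) : ∀ {n k : ℕ},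
    population ξ x₀ n (some (i + m, k)) ≠ 0 → population ξ x₀ (n + m) (some (i, k + m)) ≠ 0 := by
  induction m with
  | zero => intro n k h; exact h
  | succ m ih =>
    intro n k h
    have h1 := le_population_succ ξ x₀ n (some (i + (m + 1), k)) (some (i + m, k + 1))
      (j := 0) (by omega)
    have h2 := hξ.down n (i + m) k 0
    have h3 : population ξ x₀ (n + 1) (some (i + m, k + 1)) ≠ 0 := by
      rw [show i + (m + 1) = i + m + 1 by ring] at h1
      omega
    have h4 := ih h3
    rw [show n + (m + 1) = n + 1 + m by ring, show k + (m + 1) = k + 1 + m by ring]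
    exact h4

/-- After the last visit to the origin, levels increase and types do not increase. -/
lemma pop_after (hξ : Good ξ) {τ : ℕ} (hτ : ∀ n, τ ≤ n → population ξ x₀ n none = 0) (m : ℕ) :
    ∀ {i k : ℕ}, population ξ x₀ (τ + m) (some (i, k)) ≠ 0 →
      m ≤ k ∧ ∃ i' k', i ≤ i' ∧ population ξ x₀ τ (some (i', k')) ≠ 0 := by
  induction m with
  | zero => intro i k h; exact ⟨Nat.zero_le _, i, k, le_rfl, h⟩
  | succ m ih =>
    intro i k h
    obtain ⟨x, j, hj, hne⟩ := exists_parent ξ x₀ (τ + m) h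
    rcases x with _ | ⟨i₁, k₁⟩
    · rw [hτ (τ + m) (by omega)] at hj
      omega
    · have h1 := hξ.only _ _ _ _ _ _ hne
      obtain ⟨h2, i', k', h3, h4⟩ := ih (i := i₁) (k := k₁) (by omega)
      exact ⟨by omega, i', k', by omega, h4⟩

/-- `A` contains infinitely many vertices of type `j`. -/
def InfIn (A : Set Vx) (j : ℕ) : Prop := ∀ K, ∃ k, K ≤ k ∧ some (j, k) ∈ A

/-- Eventually no particle in `A`. -/
def Ext (ξ : ℕ × Vx × ℕ → (Vx →₀ ℕ)) (x₀ : Vx) (A : Set Vx) : Prop :=
  ∃ N : ℕ, ∀ n, N ≤ n → ∀ y ∈ A, population ξ x₀ n y = 0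

lemma finite_levels {A : Set Vx} {m : ℕ} (hA : ∀ j, j < m → ¬ InfIn A j) :
    ∃ K, ∀ j k, j < m → K ≤ k → some (j, k) ∉ A := by
  induction m with
  | zero => exact ⟨0, fun j k hj => by omega⟩
  | succ m ih =>
    obtain ⟨K, hK⟩ := ih (fun j hj => hA j (by omega))
    have h := hA m (by omega)
    unfold InfIn at h
    push Not at h
    obtain ⟨K', hK'⟩ := h
    refine ⟨max K K', fun j k hj hk => ?_⟩
    rcases Nat.lt_or_ge j m with h1 | h1
    · exact hK j k h1 ((le_max_left _ _).trans hk)
    · have : j = m := by omega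
      rw [this]
      exact hK' k ((le_max_right _ _).trans hk)

lemma ext_of_bounded (hξ : Good ξ) {τ : ℕ} (hτ : ∀ n, τ ≤ n → population ξ x₀ n none = 0)
    {A : Set Vx} {m : ℕ} (hA : ∀ j, j < m → ¬ InfIn A j)
    (hm : ∀ n, τ ≤ n → ∀ i k, m ≤ i → population ξ x₀ n (some (i, k)) = 0) : Ext ξ x₀ A := by
  obtain ⟨K, hK⟩ := finite_levels hA
  refine ⟨τ + K, fun n hn y hy => ?_⟩
  rcases y with _ | ⟨i, k⟩
  · exact hτ n (by omega)
  · by_contra hne
    obtain ⟨l, rfl⟩ : ∃ l, n = τ + l := ⟨n - τ, by omega⟩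
    have h1 := (pop_after hξ hτ l hne).1
    have h2 : i < m := by
      by_contra h
      exact hne (hm _ (by omega) i k (by omega))
    exact hK i k h2 (by omega) hy

lemma not_ext_of_type (hξ : Good ξ) {A : Set Vx} {m : ℕ} (hA : InfIn A m) {n i k : ℕ} (hi : m ≤ i)
    (h : population ξ x₀ n (some (i, k)) ≠ 0) : ¬ Ext ξ x₀ A := by
  rintro ⟨N, hN⟩
  obtain ⟨l, rfl⟩ : ∃ l, i = m + l := ⟨i - m, by omega⟩
  have h1 := pop_down hξ l h
  obtain ⟨k', hk', hkA⟩ := hA (k + l + N)
  have h2 := pop_stay hξ h1 (k' - (k + l))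
  rw [show k + l + (k' - (k + l)) = k' by omega] at h2
  exact h2 (hN _ (by omega) _ hkA)

/-- The extinction event only depends on the first type with infinitely many vertices in `A`. -/
lemma ext_iff (hξ : Good ξ) {τ : ℕ} (hτ : ∀ n, τ ≤ n → population ξ x₀ n none = 0)
    {A : Set Vx} {m : ℕ} (hA : ∀ j, j < m → ¬ InfIn A j) (hAm : InfIn A m) :
    Ext ξ x₀ A ↔ ∀ n i k, m ≤ i → population ξ x₀ n (some (i, k)) = 0 := by
  constructor
  · intro h n i k hi
    by_contra hne
    exact not_ext_of_type hξ hAm hi hne h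
  · intro h
    exact ext_of_bounded hξ hτ hA (fun n _ i k hi => h n i k hi)

/-- All the vertices of type `m`. -/
def ray (m : ℕ) : Set Vx := {x | ∃ k, x = some (m, k)}

lemma ray_inf (m : ℕ) : InfIn (ray m) m := fun K => ⟨K, le_rfl, K, rfl⟩

lemma ray_not_inf {m j : ℕ} (h : j ≠ m) : ¬ InfIn (ray m) j := by
  intro hcon
  obtain ⟨k, _, k', hk'⟩ := hcon 0
  simp only [Option.some.injEq, Prod.mk.injEq] at hk'
  exact h hk'.1

end deterministic

section origin_visits

/-- The superharmonic function. -/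
noncomputable def hfun : Vx → ℝ≥0∞
  | none => 2
  | some (_, k) => 4⁻¹ ^ k

/-- Indicator of the origin. -/
noncomputable def ind : Vx → ℝ≥0∞
  | none => 1
  | some _ => 0

lemma tsum_map {α β : Type} [MeasurableSpace β] (p : PMF α) (g : α → β) (F : β → ℝ≥0∞)
    (hF : Measurable F) [Countable α] [MeasurableSpace α] [MeasurableSingletonClass α] :
    ∫⁻ f, F f ∂(p.map g).toMeasure = ∑' a, F (g a) * p a := by
  have hg : Measurable g := measurable_of_countable _
  rw [← PMF.toMeasure_map g p hg, lintegral_map hF hg, lintegral_countable']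
  congr 1
  ext a
  rw [PMF.toMeasure_apply_singleton _ _ (measurableSet_singleton _)]

lemma meanWt_none : ind none + meanWt mu hfun none ≤ hfun none := by
  have h1 : meanWt mu hfun none = ∑' i : ℕ, wt hfun (Finsupp.single (some (i, 0)) 1) * geo i :=
    tsum_map geo (fun i => (Finsupp.single (some (i, 0)) 1 : Vx →₀ ℕ)) (wt hfun)
      (measurable_of_countable _)
  rw [h1]
  simp only [wt_single, ind, hfun, pow_zero, mul_one, Nat.cast_one, one_mul, geo.tsum_coe]
  norm_num

lemma meanWt_some (i k : ℕ) : ind (some (i, k)) + meanWt mu hfun (some (i, k)) ≤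
    hfun (some (i, k)) := by
  have h1 : meanWt mu hfun (some (i, k)) = ∑' b : Bool, wt hfun (base i k +
      Finsupp.single none (if b then 1 else 0)) * PMF.bernoulli (eps k) (eps_le_one k) b :=
    tsum_map (PMF.bernoulli (eps k) (eps_le_one k))
      (fun b => (base i k + Finsupp.single none (if b then 1 else 0) : Vx →₀ ℕ)) (wt hfun)
      (measurable_of_countable _)
  have hb : wt hfun (base i k) ≤ 3 * 4⁻¹ ^ (k + 1) := by
    unfold base
    rw [wt_add, wt_single, wt_single]
    simp only [hfun]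
    have : ((if i = 0 then 0 else 1 : ℕ) : ℝ≥0∞) ≤ 1 := by split_ifs <;> simp
    calc ((2 : ℕ) : ℝ≥0∞) * 4⁻¹ ^ (k + 1) + ((if i = 0 then 0 else 1 : ℕ) : ℝ≥0∞) * 4⁻¹ ^ (k + 1)
        ≤ ((2 : ℕ) : ℝ≥0∞) * 4⁻¹ ^ (k + 1) + 1 * 4⁻¹ ^ (k + 1) := by gcongr
      _ = 3 * 4⁻¹ ^ (k + 1) := by push_cast; ring
  have h2 : meanWt mu hfun (some (i, k)) = wt hfun (base i k) + 2 * eps k := by
    rw [h1]
    have h3 : ∀ b : Bool, wt hfun (base i k + Finsupp.single none (if b then 1 else 0)) *
        PMF.bernoulli (eps k) (eps_le_one k) b =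
        wt hfun (base i k) * PMF.bernoulli (eps k) (eps_le_one k) b +
          (if b then 1 else 0) * 2 * PMF.bernoulli (eps k) (eps_le_one k) b := by
      intro b
      rw [wt_add, wt_single]
      simp only [hfun]
      rw [add_mul]
      congr 2
      split_ifs <;> simp
    simp only [h3]
    rw [ENNReal.tsum_add, ENNReal.tsum_mul_left, PMF.tsum_coe, mul_one]
    congr 1
    rw [tsum_bool]
    simp [PMF.bernoulli_apply]
  rw [h2]
  simp only [ind, zero_add, hfun]
  have h4 : ((eps k : ℝ≥0) : ℝ≥0∞) = 4⁻¹ ^ k * 8⁻¹ := by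
    unfold eps
    rw [div_eq_mul_inv]
    push_cast
    rw [one_div, ENNReal.coe_inv (by norm_num)]
    norm_num
  rw [h4]
  calc wt hfun (base i k) + 2 * (4⁻¹ ^ k * 8⁻¹) ≤ 3 * 4⁻¹ ^ (k + 1) + 2 * (4⁻¹ ^ k * 8⁻¹) := by
        gcongr
    _ = 4⁻¹ ^ k * (3 * 4⁻¹ + 2 * 8⁻¹) := by ring
    _ = 4⁻¹ ^ k * 1 := by
        congr 1
        have h8 : (8⁻¹ : ℝ≥0∞) = 2⁻¹ * 4⁻¹ := by
          rw [← ENNReal.mul_inv (by simp) (by simp)]; norm_num
        rw [h8, ← mul_assoc, ENNReal.mul_inv_cancel (by simp) (by simp), one_mul]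
        calc (3 * 4⁻¹ + 4⁻¹ : ℝ≥0∞) = 4 * 4⁻¹ := by ring
          _ = 1 := ENNReal.mul_inv_cancel (by simp) (by simp)
    _ = 4⁻¹ ^ k := mul_one _

lemma superharmonic (x : Vx) : ind x + meanWt mu hfun x ≤ hfun x := by
  rcases x with _ | ⟨i, k⟩
  · exact meanWt_none
  · exact meanWt_some i k

lemma wt_ind (η : Vx →₀ ℕ) : wt ind η = (η none : ℝ≥0∞) := by
  unfold wt
  rw [tsum_eq_single none]
  · simp [ind]
  · intro y hy
    rcases y with _ | y
    · exact absurd rfl hy
    · simp [ind]

lemma sum_origin (x₀ : Vx) (n : ℕ) :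
    ∑ k ∈ range n, ∫⁻ ξ, (population ξ x₀ k none : ℝ≥0∞) ∂(offspringLaw mu) +
      ∫⁻ ξ, wt hfun (population ξ x₀ n) ∂(offspringLaw mu) ≤ hfun x₀ := by
  induction n with
  | zero =>
    simp only [range_zero, sum_empty, zero_add, population]
    rw [lintegral_const, measure_univ, mul_one, wt_single]
    simp
  | succ n ih =>
    refine le_trans ?_ ih
    rw [sum_range_succ, add_assoc]
    gcongr
    rw [lintegral_wt_succ, ← lintegral_add_left]
    · apply lintegral_mono
      intro ξ
      show (population ξ x₀ n none : ℝ≥0∞) + wt (meanWt mu hfun) (population ξ x₀ n) ≤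
        wt hfun (population ξ x₀ n)
      rw [← wt_ind]
      unfold wt
      rw [← ENNReal.tsum_add]
      apply ENNReal.tsum_le_tsum
      intro y
      rw [← mul_add]
      exact mul_le_mul_right (superharmonic y) _
    · exact (measurable_of_countable (fun η : Vx →₀ ℕ => (η none : ℝ≥0∞))).comp
        (measurable_population x₀ n)

lemma tsum_origin (x₀ : Vx) :
    ∫⁻ ξ, ∑' n, (population ξ x₀ n none : ℝ≥0∞) ∂(offspringLaw mu) ≤ hfun x₀ := by
  rw [lintegral_tsum]
  · rw [ENNReal.tsum_eq_iSup_nat]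
    apply iSup_le
    intro n
    exact le_trans le_self_add (sum_origin x₀ n)
  · intro n
    exact ((measurable_of_countable (fun η : Vx →₀ ℕ => (η none : ℝ≥0∞))).comp
        (measurable_population x₀ n)).aemeasurable

lemma measurable_tsum_origin (x₀ : Vx) :
    Measurable (fun ξ => ∑' n, (population ξ x₀ n none : ℝ≥0∞)) :=
  Measurable.tsum fun n => (measurable_of_countable (fun η : Vx →₀ ℕ => (η none : ℝ≥0∞))).comp
        (measurable_population x₀ n)

/-- Almost surely the origin is eventually empty. -/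
lemma ae_last_visit (x₀ : Vx) :
    ∀ᵐ ξ ∂(offspringLaw mu), ∃ τ, ∀ n, τ ≤ n → population ξ x₀ n none = 0 := by
  have h1 : ∀ᵐ ξ ∂(offspringLaw mu), ∑' n, (population ξ x₀ n none : ℝ≥0∞) < ∞ := by
    apply ae_lt_top (measurable_tsum_origin x₀)
    refine ne_top_of_le_ne_top ?_ (tsum_origin x₀)
    rcases x₀ with _ | ⟨i, k⟩
    · simp [hfun]
    · simp only [hfun]
      exact ENNReal.pow_ne_top (by simp)
  filter_upwards [h1] with ξ hξ
  have h2 := ENNReal.tendsto_atTop_zero_of_tsum_ne_top hξ.ne
  have h3 := (tendsto_order.mp h2).2 1 one_pos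
  obtain ⟨τ, hτ⟩ := Filter.eventually_atTop.mp h3
  refine ⟨τ, fun n hn => ?_⟩
  have h4 := hτ n hn
  have h5 : population ξ x₀ n none < 1 := by exact_mod_cast h4
  omega

/-- With probability at least `1 - 4^{-k}` the origin is never visited from `(i,k)`. -/
lemma prob_no_visit (i k : ℕ) :
    1 - (1 / 4 : ℝ) ^ k ≤ (offspringLaw mu).real {ξ | ∀ n, population ξ (some (i, k)) n none = 0} := by
  set S : Set (ℕ × Vx × ℕ → (Vx →₀ ℕ)) := {ξ | ∀ n, population ξ (some (i, k)) n none = 0} with hS
  have hSm : MeasurableSet S := by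
    have : S = ⋂ n, (fun ξ => population ξ (some (i, k)) n) ⁻¹' {η | η none = 0} := by
      ext ξ; simp [hS]
    rw [this]
    exact MeasurableSet.iInter fun n => measurable_population _ n (measurableSet_config _)
  have h1 : offspringLaw mu Sᶜ ≤ 4⁻¹ ^ k := by
    calc offspringLaw mu Sᶜ ≤ offspringLaw mu
          {ξ | 1 ≤ ∑' n, (population ξ (some (i, k)) n none : ℝ≥0∞)} := by
          apply measure_mono
          intro ξ hξ
          simp only [hS, Set.mem_compl_iff, Set.mem_ofPred_eq, not_forall] at hξ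
          obtain ⟨n, hn⟩ := hξ
          simp only [Set.mem_ofPred_eq]
          refine le_trans ?_ (ENNReal.le_tsum n)
          have : 1 ≤ population ξ (some (i, k)) n none := by omega
          exact_mod_cast this
      _ ≤ ∫⁻ ξ, ∑' n, (population ξ (some (i, k)) n none : ℝ≥0∞) ∂(offspringLaw mu) := by
          have := meas_ge_le_lintegral_div (μ := offspringLaw mu)
            (measurable_tsum_origin (some (i, k))).aemeasurable one_ne_zero ENNReal.one_ne_top
          simpa using this
      _ ≤ 4⁻¹ ^ k := tsum_origin (some (i, k))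
  have h2 : (offspringLaw mu).real Sᶜ ≤ (1 / 4 : ℝ) ^ k := by
    unfold Measure.real
    apply ENNReal.toReal_le_of_le_ofReal (by positivity)
    refine h1.trans (le_of_eq ?_)
    rw [ENNReal.ofReal_pow (by norm_num), one_div, ENNReal.ofReal_inv_of_pos (by norm_num)]
    norm_num
  have h3 := probReal_compl_eq_one_sub (μ := offspringLaw mu) hSm
  linarith

end origin_visits

section vectors

lemma extProb_congr {A A' : Set Vx} {x : Vx}
    (h : ∀ᵐ ξ ∂(offspringLaw mu), Ext ξ x A ↔ Ext ξ x A') : extProb mu A x = extProb mu A' x := by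
  unfold extProb
  apply measureReal_congr
  filter_upwards [h] with ξ hξ
  exact propext hξ

/-- If `m` is the first type with infinitely many vertices in `A` then `q(·,A) = q(·, ray m)`. -/
lemma extProb_eq_ray {A : Set Vx} {m : ℕ} (hA : ∀ j, j < m → ¬ InfIn A j) (hAm : InfIn A m) :
    extProb mu A = extProb mu (ray m) := by
  funext x
  apply extProb_congr
  filter_upwards [ae_good, ae_last_visit x] with ξ hξ ⟨τ, hτ⟩
  rw [ext_iff hξ hτ hA hAm,
    ext_iff hξ hτ (fun j hj => ray_not_inf (by omega)) (ray_inf m)]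

/-- If `A` contains finitely many vertices of each type then `q(·,A) = 1`. -/
lemma extProb_eq_one {A : Set Vx} (hA : ∀ j, ¬ InfIn A j) : extProb mu A = fun _ => 1 := by
  funext x
  have h : ∀ᵐ ξ ∂(offspringLaw mu), Ext ξ x A := by
    filter_upwards [ae_good, ae_last_visit x] with ξ hξ ⟨τ, hτ⟩
    obtain ⟨M, hM⟩ : ∃ M, ∀ i k, population ξ x τ (some (i, k)) ≠ 0 → i < M := by
      classical
      refine ⟨((population ξ x τ).support.sup
        (fun y => match y with | none => 0 | some (i, _) => i)) + 1, fun i k h => ?_⟩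
      have := Finset.le_sup (f := fun y : Vx => match y with | none => 0 | some (i, _) => i)
        (Finsupp.mem_support_iff.mpr h)
      simp only at this
      omega
    apply ext_of_bounded hξ hτ (m := M) (fun j _ => hA j)
    intro n hn i k hi
    by_contra hne
    obtain ⟨l, rfl⟩ : ∃ l, n = τ + l := ⟨n - τ, by omega⟩
    obtain ⟨_, i', k', h1, h2⟩ := pop_after hξ hτ l hne
    have := hM i' k' h2
    omega
  unfold extProb
  have : (offspringLaw mu).real {ξ | Ext ξ x A} = 1 := by
    rw [← probReal_univ (μ := offspringLaw mu)]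
    apply measureReal_congr
    filter_upwards [h] with ξ hξ
    exact propext ⟨fun _ => trivial, fun _ => hξ⟩
  exact this

lemma ray_value_zero {i m k : ℕ} (h : m ≤ i) : extProb mu (ray m) (some (i, k)) = 0 := by
  unfold extProb
  rw [measureReal_eq_zero_iff]
  have h1 := ae_good
  rw [ae_iff] at h1
  refine measure_mono_null ?_ h1
  intro ξ hξ hgood
  refine not_ext_of_type (x₀ := some (i, k)) hgood (ray_inf m) h (n := 0) (k := k) ?_ hξ
  simp [population]

lemma ray_value_pos {i m k : ℕ} (h : i < m) : 1 - (1 / 4 : ℝ) ^ k ≤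
    extProb mu (ray m) (some (i, k)) := by
  refine (prob_no_visit i k).trans ?_
  unfold extProb
  have : (offspringLaw mu).real {ξ | ∀ n, population ξ (some (i, k)) n none = 0} =
      (offspringLaw mu).real ({ξ | ∀ n, population ξ (some (i, k)) n none = 0} ∩ {ξ | Good ξ}) := by
    apply measureReal_congr
    filter_upwards [ae_good] with ξ hξ
    exact propext ⟨fun h => ⟨h, hξ⟩, fun h => h.1⟩
  rw [this]
  refine measureReal_mono ?_ (measure_ne_top _ _)
  rintro ξ ⟨h0, hgood⟩
  have h0' : ∀ n, 0 ≤ n → population ξ (some (i, k)) n none = 0 := fun n _ => h0 n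
  refine ext_of_bounded (x₀ := some (i, k)) hgood h0' (m := m)
    (fun j hj => ray_not_inf (by omega)) ?_
  intro n _ i' k' hi'
  by_contra hne
  have h1 := pop_after hgood h0' n (i := i') (k := k') (by rwa [zero_add])
  obtain ⟨_, i'', k'', h2, h3⟩ := h1
  simp only [population, Finsupp.single_apply] at h3
  split_ifs at h3 with h4
  · simp only [Option.some.injEq, Prod.mk.injEq] at h4
    omega
  · exact h3 rfl

end vectors

section irreducibility

lemma meanOffspring_pos {x y : Vx} {f : Vx →₀ ℕ} (hf : mu x f ≠ 0) (hy : f y ≠ 0) :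
    0 < meanOffspring mu x y := by
  unfold meanOffspring
  rw [pos_iff_ne_zero]
  intro h
  rw [ENNReal.tsum_eq_zero] at h
  have := h f
  rw [mul_eq_zero] at this
  rcases this with h1 | h1
  · exact hy (by exact_mod_cast h1)
  · exact hf h1

lemma map_ne_zero {α β : Type} (p : PMF α) (g : α → β) (a : α) (h : p a ≠ 0) :
    (p.map g) (g a) ≠ 0 := by
  rw [← PMF.mem_support_iff, PMF.mem_support_map_iff]
  exact ⟨a, (PMF.mem_support_iff _ _).mpr h, rfl⟩

lemma bern_true (k : ℕ) : PMF.bernoulli (eps k) (eps_le_one k) true ≠ 0 := by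
  rw [PMF.bernoulli_apply]
  simpa using (eps_pos k).ne'

lemma mu_some_mass (i k : ℕ) : mu (some (i, k)) (base i k + Finsupp.single none 1) ≠ 0 := by
  have := map_ne_zero (PMF.bernoulli (eps k) (eps_le_one k))
    (fun b => (base i k + Finsupp.single none (if b then 1 else 0) : Vx →₀ ℕ)) true (bern_true k)
  exact this

lemma irreducible : IrreducibleBRW mu := by
  have s1 : ∀ i k, 0 < meanOffspring mu (some (i, k)) none := fun i k =>
    meanOffspring_pos (mu_some_mass i k) (by simp)
  have s2 : ∀ i k, 0 < meanOffspring mu (some (i, k)) (some (i, k + 1)) := fun i k =>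
    meanOffspring_pos (mu_some_mass i k) (by
      rw [Finsupp.add_apply]
      have := base_stay i k
      omega)
  have s3 : ∀ i, 0 < meanOffspring mu none (some (i, 0)) := fun i =>
    meanOffspring_pos (f := Finsupp.single (some (i, 0)) 1)
      (map_ne_zero geo (fun i => (Finsupp.single (some (i, 0)) 1 : Vx →₀ ℕ)) i (by
        show (2⁻¹ : ℝ≥0∞) ^ (i + 1) ≠ 0
        exact pow_ne_zero _ (by simp))) (by simp)
  have h1 : ∀ x : Vx, Relation.ReflTransGen (fun a b => 0 < meanOffspring mu a b) x none := by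
    intro x
    rcases x with _ | ⟨i, k⟩
    · exact Relation.ReflTransGen.refl
    · exact Relation.ReflTransGen.single (s1 i k)
  have h2 : ∀ y : Vx, Relation.ReflTransGen (fun a b => 0 < meanOffspring mu a b) none y := by
    intro y
    rcases y with _ | ⟨i, k⟩
    · exact Relation.ReflTransGen.refl
    · induction k with
      | zero => exact Relation.ReflTransGen.single (s3 i)
      | succ k ih => exact ih.tail (s2 i k)
  exact fun x y => (h1 x).trans (h2 y)

end irreducibility

/-- **Main result.**  There is an irreducible non-singular branching random walk on a countable set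
whose set `E_G` of extinction probability vectors is countably infinite. -/
theorem result : ∃ (X : Type) (_ : Countable X) (μ : X → PMF (X →₀ ℕ)),
    IrreducibleBRW μ ∧ NonSingular μ ∧ (extVectors μ).Countable ∧ (extVectors μ).Infinite := by
  refine ⟨Vx, inferInstance, mu, irreducible, ?_, ?_, ?_⟩
  · refine ⟨some (0, 0), _, mu_some_mass 0 0, ?_⟩
    unfold base
    rw [Finsupp.sum_add_index' (by simp) (by simp), Finsupp.sum_add_index' (by simp) (by simp)]
    simp
  · have hsub : extVectors mu ⊆ Set.range (fun m => extProb mu (ray m)) ∪ {fun _ => 1} := by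
      rintro _ ⟨A, rfl⟩
      by_cases hA : ∃ j, InfIn A j
      · classical
        left
        refine ⟨Nat.find hA, ?_⟩
        exact (extProb_eq_ray (fun j hj => Nat.find_min hA hj) (Nat.find_spec hA)).symm
      · push Not at hA
        right
        exact extProb_eq_one hA
    exact ((Set.countable_range _).union (Set.countable_singleton _)).mono hsub
  · have hinj : Function.Injective (fun m => extProb mu (ray m)) := by
      intro m m' h
      by_contra hne
      have key : ∀ a b, a < b → extProb mu (ray a) ≠ extProb mu (ray b) := by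
        intro a b hab heq
        have h1 := ray_value_zero (i := a) (m := a) (k := 1) le_rfl
        have h2 := ray_value_pos (i := a) (m := b) (k := 1) hab
        rw [← heq, h1] at h2
        norm_num at h2
      rcases Nat.lt_or_gt_of_ne hne with h1 | h1
      · exact key m m' h1 h
      · exact key m' m h1 h.symm
    exact (Set.infinite_range_of_injective hinj).mono (by
      rintro _ ⟨m, rfl⟩
      exact ⟨_, rfl⟩)

end Pool.Agent.Results.MP_2fa7ec_pr.CountablyInfinite
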